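import Mathlib
import Pool.Agent.Helper93_ABCT.StmtI

/-!
# ABCT: CFLD, the function field of a normal cell
-/

open MvPolynomial Topology

namespace PosGeom.H81

theorem LF_eq {ι : Type} {d : ℕ} (N : NCell ι d) (i : ι) :
    N.LF i = algebraMap (MvPolynomial (Fin d) ℂ) (Fd d)
      (evN (fun j => (X j : MvPolynomial (Fin d) ℂ)) (N.L i)) := by
  unfold NCell.LF evN
  rw [← RingHom.coe_coe (algebraMap (MvPolynomial (Fin d) ℂ) (Fd d)), hom_eval₂]
  congr 1
  exact Subsingleton.elim _ _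

theorem evN_ne {ι : Type} {d : ℕ} (N : NCell ι d) (i : ι) (hi : i ∈ N.M) :
    evN (fun j => (X j : MvPolynomial (Fin d) ℂ)) (N.L i) ≠ 0 := by
  intro h2
  have h4 : evN (fun j => (X j : MvPolynomial (Fin d) ℂ)) (N.L i) =
      map (Nat.castRingHom ℂ) (N.L i) := by
    rw [evN, ← eval₂_eta (map (Nat.castRingHom ℂ) (N.L i)), eval₂_map]
    congr 1
  rw [h4] at h2
  exact hi (map_injective (Nat.castRingHom ℂ) Nat.cast_injective (by rw [h2, map_zero]))

theorem LF_ne {ι : Type} {d : ℕ} (N : NCell ι d) (i : ι) (hi : i ∈ N.M) : N.LF i ≠ 0 := by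
  rw [LF_eq]
  intro h
  exact evN_ne N i hi ((IsFractionRing.injective (MvPolynomial (Fin d) ℂ) (Fd d))
    (by rw [h, map_zero]))

theorem mem_var_iff {ι : Type} {d : ℕ} (N : NCell ι d) (F : MvPolynomial ι ℂ) (n : ℕ)
    (hF : F.IsHomogeneous n) : aeval N.LF F = 0 ↔ F ∈ N.var.I := by
  have h1 : aeval N.LF F = algebraMap (MvPolynomial (Fin d) ℂ) (Fd d)
      (aeval (fun i => evN (fun j => (X j : MvPolynomial (Fin d) ℂ)) (N.L i)) F) := by
    rw [← aeval_algebraMap_apply]
    congr 2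
    funext i
    exact LF_eq N i
  have h2 : F ∈ N.var.I ↔ N.hom F = 0 := Iff.rfl
  rw [h1, h2]
  constructor
  · intro h
    have h3 := (IsFractionRing.injective (MvPolynomial (Fin d) ℂ) (Fd d))
      (h.trans (map_zero _).symm)
    ext1 m
    rw [N.hom_coeff, Polynomial.coeff_zero]
    rw [homogeneousComponent_of_mem hF]
    split_ifs with hm
    · exact h3
    · exact map_zero _
  · intro h
    have h3 := N.hom_coeff F n
    rw [h, Polynomial.coeff_zero, homogeneousComponent_of_mem hF, if_pos rfl] at h3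
    rw [← h3, map_zero]

theorem adjoin_yv (d : ℕ) : IntermediateField.adjoin ℂ (Set.range (yv d)) = ⊤ := by
  rw [eq_top_iff]
  intro f _
  obtain ⟨p, q, hq, rfl⟩ := IsFractionRing.div_surjective (A := MvPolynomial (Fin d) ℂ) f
  have key : ∀ p : MvPolynomial (Fin d) ℂ, algebraMap (MvPolynomial (Fin d) ℂ) (Fd d) p ∈
      IntermediateField.adjoin ℂ (Set.range (yv d)) := by
    intro p
    induction p using MvPolynomial.induction_on with
    | C a =>
      have : algebraMap (MvPolynomial (Fin d) ℂ) (Fd d) (C a) = algebraMap ℂ (Fd d) a := by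
        rw [IsScalarTower.algebraMap_apply ℂ (MvPolynomial (Fin d) ℂ) (Fd d)]
        rfl
      rw [this]
      exact IntermediateField.algebraMap_mem _ _
    | add p q hp hq =>
      rw [map_add]
      exact add_mem hp hq
    | mul_X p i hp =>
      rw [map_mul]
      exact mul_mem hp (IntermediateField.subset_adjoin _ _ ⟨i, rfl⟩)
  exact div_mem (key p) (key q)

theorem algInd_yv (d : ℕ) : AlgebraicIndependent ℂ (yv d) := by
  have h := MvPolynomial.algebraicIndependent_X (Fin d) ℂ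
  exact h.map' (f := IsScalarTower.toAlgHom ℂ (MvPolynomial (Fin d) ℂ) (Fd d))
    (IsFractionRing.injective (MvPolynomial (Fin d) ℂ) (Fd d))

theorem trdeg_Fd (d : ℕ) : Algebra.trdeg ℂ (Fd d) = d := by
  have h := trdeg_add_eq ℂ (MvPolynomial (Fin d) ℂ) (A := Fd d)
  have h2 : Algebra.IsAlgebraic (MvPolynomial (Fin d) ℂ) (Fd d) :=
    IsLocalization.isAlgebraic _ (nonZeroDivisors (MvPolynomial (Fin d) ℂ))
  rw [trdeg_eq_zero (R := MvPolynomial (Fin d) ℂ) (A := Fd d), add_zero,
    MvPolynomial.trdeg_of_isDomain] at h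
  rw [← h]
  simp

theorem mon_mem {ι : Type} [Fintype ι] {K : Type} [Field K] [Algebra ℂ K] (M' : Set ι) (p : ι → K)
    (hp : ∀ i ∈ M', p i ≠ 0) (i₀ : ι) (h0 : i₀ ∈ M') (f : K) (hf : f ∈ MonI M' p) :
    f ∈ IntermediateField.adjoin ℂ {f | ∃ i j, f = p i / p j} := by
  obtain ⟨n, hn1, hn2, rfl⟩ := hf
  have h1 : ∏ i, p i ^ n i = ∏ i, (p i / p i₀) ^ n i := by
    have h2 : ∀ i, (p i / p i₀) ^ n i = p i ^ n i * (p i₀ ^ n i)⁻¹ := by
      intro i
      rw [div_zpow, div_eq_mul_inv]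
    simp_rw [h2]
    rw [Finset.prod_mul_distrib, Finset.prod_inv_distrib]
    have h3 : ∏ i, p i₀ ^ n i = 1 := by
      have key : ∀ s : Finset ι, ∏ i ∈ s, p i₀ ^ n i = p i₀ ^ (∑ i ∈ s, n i) := by
        intro s
        classical
        induction s using Finset.induction_on with
        | empty => simp
        | insert a s ha ih => rw [Finset.prod_insert ha, Finset.sum_insert ha, ih,
            zpow_add₀ (hp i₀ h0)]
      rw [key, hn2, zpow_zero]
    rw [h3, inv_one, mul_one]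
  rw [h1]
  refine prod_mem fun i _ => zpow_mem (IntermediateField.subset_adjoin _ _ ?_) _
  exact ⟨i, i₀, rfl⟩

theorem isCoord_symm {K : Type} [Field K] [Algebra ℂ K] (d : ℕ) (f : Fd d →ₐ[ℂ] K)
    (hf : Function.Surjective f) : IsCoord (fun j => f (yv d j)) := by
  constructor
  · exact (algInd_yv d).map' (f := f) f.toRingHom.injective
  · have h6 : Set.range (fun j => f (yv d j)) = f '' Set.range (yv d) := by
      rw [← Set.range_comp]
      rfl
    rw [h6, ← IntermediateField.adjoin_map, adjoin_yv]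
    rw [eq_top_iff]
    intro x _
    obtain ⟨y, rfl⟩ := hf x
    exact ⟨y, trivial, rfl⟩

theorem cfld (hSgen : SgenStmt) : CfldStmt := by
  intro ι _ d N hN
  have h4 := mem_var_iff N
  obtain ⟨-, -, h3⟩ := hSgen ι N.var
  obtain ⟨e, he1, he2⟩ := h3 (Fd d) N.LF h4
  obtain ⟨i₀, hi₀⟩ := N.ne
  have hsurj : Function.Surjective e := by
    have h5 : e.fieldRange = ⊤ := by
      rw [eq_top_iff, ← adjoin_yv d, he2, IntermediateField.adjoin_le_iff]
      rintro _ ⟨j, rfl⟩
      exact mon_mem N.M N.LF (fun i hi => LF_ne N i hi) i₀ hi₀ _ (hN j)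
    exact AlgHom.fieldRange_eq_top.1 h5
  let E : N.var.K ≃ₐ[ℂ] Fd d := AlgEquiv.ofBijective e ⟨e.toRingHom.injective, hsurj⟩
  refine ⟨⟨E, fun f g => he1 f g⟩, ?_, ?_, h4⟩
  · intro e' _
    exact isCoord_symm d e'.symm.toAlgHom e'.symm.surjective
  · rw [E.trdeg_eq, trdeg_Fd]

end PosGeom.H81
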