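import Mathlib
import Pool.Agent.Helper93_ABCT.StmtK
import Pool.Agent.Helper32_ABCT.Api2

/-!
# ABCT: KLAT, the chart lattices at a facet
-/

open MvPolynomial Topology

namespace PosGeom.H81

open ABCT FlatCell

theorem closure_coords {M : Type*} [AddCommGroup M] {n : ℕ} (b : Fin n → M) (m : M)
    (hm : m ∈ AddSubgroup.closure (Set.range b)) : ∃ c : Fin n → ℤ, ∑ j, c j • b j = m := by
  rw [← Submodule.span_int_eq_addSubgroupClosure, Submodule.mem_toAddSubgroup] at hm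
  exact (Submodule.mem_span_range_iff_exists_fun ℤ).1 hm

/-- the pairing as a homomorphism -/
noncomputable def pairHom {S S' : FlatCell} (φ : FacetData S S') : (S.V →₀ ℤ) →+ ℤ :=
  Finsupp.liftAddHom fun v => AddMonoidHom.mulLeft (φ.lam v)

theorem pairHom_apply {S S' : FlatCell} (φ : FacetData S S') (m : S.V →₀ ℤ) :
    pairHom φ m = φ.pair m := rfl

theorem klat_aux {S S' : FlatCell} (φ : FacetData S S')
    (θ : {m : S.V →₀ ℤ // m ∈ S.Lam ∧ φ.pair m = 0} ≃ S'.Lam)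
    (hθ : ∀ a b c : {m : S.V →₀ ℤ // m ∈ S.Lam ∧ φ.pair m = 0}, c.1 = a.1 + b.1 →
      (θ c : S'.V →₀ ℤ) = θ a + θ b) {d : ℕ} (b' : Fin d → (S'.V →₀ ℤ))
    (hb' : ∀ k, b' k ∈ S'.Lam) (hspan : S'.Lam ≤ AddSubgroup.closure (Set.range b'))
    (m : S.V →₀ ℤ) (hm : m ∈ S.Lam) (hm0 : φ.pair m = 0) :
    ∃ c : Fin d → ℤ, ∑ k, c k • (θ.symm ⟨b' k, hb' k⟩).1 = m := by
  let K : AddSubgroup (S.V →₀ ℤ) := S.Lam ⊓ (pairHom φ).ker
  have hK : ∀ k : K, (k : S.V →₀ ℤ) ∈ S.Lam ∧ φ.pair (k : S.V →₀ ℤ) = 0 := fun k =>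
    ⟨k.2.1, (AddMonoidHom.mem_ker (f := pairHom φ)).1 k.2.2⟩
  let Θ : K →+ S'.Lam := AddMonoidHom.mk' (fun k => θ ⟨k, hK k⟩) (by
    intro x y
    apply Subtype.ext
    exact hθ ⟨x, hK x⟩ ⟨y, hK y⟩ ⟨(x + y : K), hK (x + y)⟩ rfl)
  have hΘ : ∀ k : K, Θ k = θ ⟨k, hK k⟩ := fun k => rfl
  have hinj : Function.Injective Θ := by
    intro x y hxy
    rw [hΘ, hΘ] at hxy
    have := θ.injective hxy
    exact Subtype.ext (congrArg Subtype.val this)
  let β : Fin d → K := fun k => ⟨(θ.symm ⟨b' k, hb' k⟩).1, (θ.symm ⟨b' k, hb' k⟩).2.1,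
    (θ.symm ⟨b' k, hb' k⟩).2.2⟩
  have hβ : ∀ k, Θ (β k) = ⟨b' k, hb' k⟩ := by
    intro k
    rw [hΘ]
    exact θ.apply_symm_apply _
  have hmK : m ∈ K := ⟨hm, hm0⟩
  obtain ⟨c, hc⟩ := closure_coords b' (Θ ⟨m, hmK⟩ : S'.V →₀ ℤ) (hspan (Θ ⟨m, hmK⟩).2)
  refine ⟨c, ?_⟩
  have h1 : Θ (∑ k, c k • β k) = Θ ⟨m, hmK⟩ := by
    rw [map_sum]
    apply Subtype.ext
    rw [← hc, AddSubgroup.val_finsetSum]
    refine Finset.sum_congr rfl fun k _ => ?_
    rw [map_zsmul, hβ]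
    rfl
  have h2 := congrArg (fun x : K => (x : S.V →₀ ℤ)) (hinj h1)
  simp only [AddSubgroup.val_finsetSum] at h2
  rw [← h2]
  rfl

theorem klat : KlatStmt := by
  intro ι _ emb S S' hS hS' φ hφ d N N' b b' a a' hN hN'
  obtain ⟨θ, hθ1, hθ2, hθ3, hθ4⟩ := hφ.res
  obtain ⟨m1, hm1, hm1p⟩ := hφ.one
  let β : Fin d → {m : S.V →₀ ℤ // m ∈ S.Lam ∧ φ.pair m = 0} := fun k =>
    θ.symm ⟨b' k, hN'.mem k⟩
  let B : Fin (d + 1) → (S.V →₀ ℤ) := Fin.cons m1 (fun k => (β k).1)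
  have hBmem : ∀ i, B i ∈ S.Lam := by
    intro i
    refine Fin.cases hm1 (fun k => ?_) i
    exact (β k).2.1
  have hBc : ∀ i, ∃ c : Fin (d + 1) → ℤ, ∑ j, c j • b j = B i := fun i =>
    closure_coords b (B i) (hN.span (hBmem i))
  choose A hA using hBc
  have hbc : ∀ i, ∃ c : Fin (d + 1) → ℤ, ∑ j, c j • B j = b i := by
    intro i
    have h1 : b i - φ.pair (b i) • m1 ∈ S.Lam := sub_mem (hN.mem i) (zsmul_mem hm1 _)
    have h2 : φ.pair (b i - φ.pair (b i) • m1) = 0 := by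
      rw [← pairHom_apply, map_sub, map_zsmul, pairHom_apply, pairHom_apply, hm1p]
      simp
    obtain ⟨c, hc⟩ := klat_aux φ θ hθ1 b' hN'.mem hN'.span _ h1 h2
    refine ⟨Fin.cons (φ.pair (b i)) c, ?_⟩
    rw [Fin.sum_univ_succ]
    have h3 : ∑ k : Fin d, (Fin.cons (φ.pair (b i)) c : Fin (d + 1) → ℤ) k.succ • B k.succ =
        b i - φ.pair (b i) • m1 := by
      rw [← hc]
      rfl
    rw [h3]
    show φ.pair (b i) • m1 + _ = _
    abel
  choose C hC using hbc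
  have hCA : Matrix.of C * Matrix.of A = 1 := by
    have h1 : ∀ i, ∑ j, (Matrix.of C * Matrix.of A) i j • b j = b i := by
      intro i
      have h2 : ∀ j, (Matrix.of C * Matrix.of A) i j = ∑ k, C i k * A k j := fun j => by
        rw [Matrix.mul_apply]
        rfl
      simp_rw [h2, Finset.sum_smul]
      rw [Finset.sum_comm]
      have h3 : ∀ k, ∑ j, (C i k * A k j) • b j = C i k • B k := by
        intro k
        rw [← hA k, Finset.smul_sum]
        exact Finset.sum_congr rfl fun j _ => mul_smul _ _ _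
      simp_rw [h3]
      exact hC i
    ext i j
    have h4 := Fintype.linearIndependent_iff.1 hN.ind
      (fun j => (Matrix.of C * Matrix.of A) i j - (1 : Matrix (Fin (d + 1)) (Fin (d + 1)) ℤ) i j)
      (by
        simp_rw [sub_smul]
        rw [Finset.sum_sub_distrib, h1 i]
        simp [Matrix.one_apply])
    exact sub_eq_zero.1 (h4 j)
  have hdet : IsUnit (Matrix.of A).det := by
    have h1 := congrArg Matrix.det hCA
    rw [Matrix.det_mul, Matrix.det_one] at h1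
    exact IsUnit.of_mul_eq_one _ (by rw [mul_comm]; exact h1)
  refine ⟨Matrix.of A, Int.isUnit_iff.1 hdet, ?_, ?_⟩
  · have h1 : ∑ j, (Matrix.of A) 0 j • b j = m1 := hA 0
    rw [h1, hm1p]
  · intro k
    have h1 : ∑ j, (Matrix.of A) k.succ j • b j = (β k).1 := hA k.succ
    have h2 : (θ (β k) : S'.V →₀ ℤ) = b' k := by
      show ((θ (θ.symm ⟨b' k, hN'.mem k⟩) : S'.Lam) : S'.V →₀ ℤ) = b' k
      rw [θ.apply_symm_apply]
    rw [h1]
    refine ⟨(β k).2.2, ?_, ?_⟩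
    · have h3 := hθ2 (β k)
      rw [h2] at h3
      exact h3
    · intro hk
      have h3 := hθ4 (β k) ((hθ3 (β k)).2 (by rw [h2]; exact hN'.lab k hk))
      rw [h3, h2]

end PosGeom.H81
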