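import Mathlib
import Pool.Agent.Helper93_ABCT.StmtK
import Pool.Agent.Helper32_ABCT.NWf
import Pool.Agent.Helper32_ABCT.Api2

/-!
# ABCT: KNRM, existence of normal forms
-/

open MvPolynomial Topology

namespace PosGeom.H81

open ABCT FlatCell

/-- the chart lattice as a `ℤ`-module -/
noncomputable abbrev LamZ (S : FlatCell) : Submodule ℤ (S.V →₀ ℤ) := AddSubgroup.toIntSubmodule S.Lam

theorem lam_finite (S : FlatCell) : Module.Finite ℤ (LamZ S) := by
  classical
  rw [Module.Finite.iff_fg]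
  have h1 : LamZ S = Submodule.span ℤ {m | ∃ I ∈ S.M, ∃ J ∈ S.M, ∃ μ ∈ (S.pol I).support,
      ∃ ν ∈ (S.pol J).support, m = zexp μ - zexp ν} := by
    rw [LamZ, FlatCell.Lam, AddSubgroup.toIntSubmodule_closure]
  rw [h1]
  apply Submodule.fg_span
  apply Set.Finite.subset (Finset.finite_toSet
    (((S.M.biUnion fun I => (S.pol I).support) ×ˢ (S.M.biUnion fun I => (S.pol I).support)).image
      fun p => zexp p.1 - zexp p.2))
  rintro m ⟨I, hI, J, hJ, μ, hμ, ν, hν, rfl⟩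
  rw [Finset.mem_coe, Finset.mem_image]
  refine ⟨(μ, ν), ?_, rfl⟩
  rw [Finset.mem_product, Finset.mem_biUnion, Finset.mem_biUnion]
  exact ⟨⟨I, hI, hμ⟩, ⟨J, hJ, hν⟩⟩

theorem exists_basis (S : FlatCell) :
    ∃ (a c : ℕ) (B : Module.Basis (Fin (a + c)) ℤ (LamZ S)),
      (∀ j : Fin (a + c), (j : ℕ) < a → ∀ i : ℕ, (B j : S.V →₀ ℤ) (Sum.inl i) = 0) ∧
      (∀ m : LamZ S, (∀ i : ℕ, (m : S.V →₀ ℤ) (Sum.inl i) = 0) →
        ∀ j : Fin (a + c), a ≤ (j : ℕ) → B.repr m j = 0) := by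
  classical
  have := lam_finite S
  let f : LamZ S →ₗ[ℤ] (ℕ → ℤ) :=
    (LinearMap.pi fun i : ℕ => (Finsupp.lapply (Sum.inl i) : (S.V →₀ ℤ) →ₗ[ℤ] ℤ)).comp
      (LamZ S).subtype
  have hf : ∀ m : LamZ S, m ∈ LinearMap.ker f ↔ ∀ i : ℕ, (m : S.V →₀ ℤ) (Sum.inl i) = 0 := by
    intro m
    rw [LinearMap.mem_ker]
    exact funext_iff
  have h1 : Module.Free ℤ (LinearMap.range f) := inferInstance
  have h2 : Module.Free ℤ (LamZ S ⧸ LinearMap.ker f) := Module.Free.of_equiv f.quotKerEquivRange.symm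
  have h3 : Module.Free ℤ (LinearMap.ker f) := inferInstance
  let bW := Module.finBasis ℤ (LinearMap.ker f)
  let bQ := Module.finBasis ℤ (LamZ S ⧸ LinearMap.ker f)
  refine ⟨_, _, (Module.Basis.sumQuot bW bQ).reindex finSumFinEquiv, ?_, ?_⟩
  · intro j hj
    have h4 : finSumFinEquiv.symm j = Sum.inl ⟨j, hj⟩ := by
      rw [Equiv.symm_apply_eq]
      apply Fin.ext
      simp
    rw [Module.Basis.reindex_apply, h4, Module.Basis.sumQuot_inl]
    exact (hf _).1 (bW ⟨j, hj⟩).2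
  · intro m hm j hj
    obtain ⟨k, hk⟩ : ∃ k, finSumFinEquiv.symm j = Sum.inr k := by
      refine ⟨⟨j - Module.finrank ℤ (LinearMap.ker f), by have := j.2; omega⟩, ?_⟩
      rw [Equiv.symm_apply_eq]
      apply Fin.ext
      simp
      omega
    rw [Module.Basis.repr_reindex, Finsupp.mapDomain_equiv_apply, hk]
    exact Module.Basis.sumQuot_repr_inr_of_mem bW bQ m ((hf m).2 hm) k

theorem knrm : KnrmStmt := by
  classical
  intro ι _ emb S hS
  obtain ⟨a, c, B, hB1, hB2⟩ := exists_basis S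
  obtain ⟨I₀, hI₀⟩ := hS.wf.nonempty
  have hpol : ∀ I, S.pol I ≠ 0 ↔ I ∈ S.M := by
    intro I
    rw [← hS.wf.ne, FlatCell.pol, natpoly_mul_ne_zero_iff]
    have h1 : (∏ i ∈ I, X (Sum.inl i) : MvPolynomial S.V ℕ) ≠ 0 :=
      natpoly_prod_ne_zero _ _ fun i _ => X_ne_zero _
    have h2 : rename (Sum.inr : S.G → S.V) (S.Δ I) ≠ 0 ↔ S.Δ I ≠ 0 := by
      rw [Ne, Ne, not_iff_not]
      constructor
      · intro h
        exact rename_injective _ Sum.inr_injective (by rw [h, map_zero])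
      · intro h
        rw [h, map_zero]
    rw [h2]
    exact ⟨fun h => h.2, fun h => ⟨h1, h⟩⟩
  obtain ⟨μ₀, hμ₀⟩ := support_nonempty.2 ((hpol I₀).2 hI₀)
  have hmemLam : ∀ I, ∀ μ ∈ (S.pol I).support, zexp μ - zexp μ₀ ∈ LamZ S := by
    intro I μ hμ
    have hI : I ∈ S.M := (hpol I).1 (support_nonempty.1 ⟨μ, hμ⟩)
    exact AddSubgroup.subset_closure ⟨I, hI, I₀, hI₀, μ, hμ, μ₀, hμ₀, rfl⟩
  let n : (S.V →₀ ℕ) → Fin (a + c) → ℤ := fun μ j =>
    if h : zexp μ - zexp μ₀ ∈ LamZ S then B.repr ⟨_, h⟩ j else 0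
  have hn : ∀ I, ∀ μ ∈ (S.pol I).support,
      zexp μ - zexp μ₀ = ∑ j, n μ j • (B j : S.V →₀ ℤ) := by
    intro I μ hμ
    have h := hmemLam I μ hμ
    have h1 := B.sum_repr ⟨_, h⟩
    have h2 := congrArg (fun x : LamZ S => (x : S.V →₀ ℤ)) h1
    simp only [Submodule.coe_sum, Submodule.coe_smul] at h2
    rw [← h2]
    refine Finset.sum_congr rfl fun j _ => ?_
    simp only [n]
    rw [dif_pos h]
  let s : Fin (a + c) → ℕ := fun j =>
    ∑ i : ι, ∑ μ ∈ (S.pol (emb i)).support, (n μ j).natAbs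
  have hs : ∀ i, ∀ μ ∈ (S.pol (emb i)).support, ∀ j, 0 ≤ n μ j + s j := by
    intro i μ hμ j
    have h1 : (n μ j).natAbs ≤ ∑ μ ∈ (S.pol (emb i)).support, (n μ j).natAbs :=
      Finset.single_le_sum (f := fun μ => (n μ j).natAbs) (fun _ _ => Nat.zero_le _) hμ
    have h2 : ∑ μ ∈ (S.pol (emb i)).support, (n μ j).natAbs ≤ s j :=
      Finset.single_le_sum (f := fun i => ∑ μ ∈ (S.pol (emb i)).support, (n μ j).natAbs)
        (fun _ _ => Nat.zero_le _) (Finset.mem_univ i)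
    omega
  let k : (S.V →₀ ℕ) → (Fin (a + c) →₀ ℕ) := fun μ =>
    Finsupp.equivFunOnFinite.symm fun j => (n μ j + s j).toNat
  let L : ι → MvPolynomial (Fin (a + c)) ℕ := fun i =>
    ∑ μ ∈ (S.pol (emb i)).support, monomial (k μ) (coeff μ (S.pol (emb i)))
  have hLne : ∃ i, L i ≠ 0 := by
    obtain ⟨i, hi⟩ := hS.sub I₀ hI₀
    refine ⟨i, ?_⟩
    rw [natpoly_ne_zero_iff]
    simp only [L]
    rw [map_sum]
    have h1 : ∀ μ ∈ (S.pol (emb i)).support,
        eval (fun _ => 1) (monomial (k μ) (coeff μ (S.pol (emb i)))) =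
          coeff μ (S.pol (emb i)) := by
      intro μ _
      rw [eval_monomial]
      simp
    rw [Finset.sum_congr rfl h1, hi]
    apply Finset.sum_pos'
    · intro μ _; exact Nat.zero_le _
    · exact ⟨μ₀, hμ₀, Nat.pos_of_ne_zero (mem_support_iff.1 hμ₀)⟩
  have hmem : ∀ j, (B j : S.V →₀ ℤ) ∈ S.Lam := fun j => (B j).2
  have hxx : ∀ v : S.V, (xx v : S.F) ≠ 0 := fun v => xx_ne_zero v
  refine ⟨a + c, ⟨L, hLne⟩, fun j => (B j : S.V →₀ ℤ), a, ?_⟩
  constructor
  · exact hmem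
  · exact B.linearIndependent.map' (LamZ S).subtype (Submodule.ker_subtype _)
  · intro m hm
    have h1 := B.sum_repr ⟨m, hm⟩
    have h2 := congrArg (fun x : LamZ S => (x : S.V →₀ ℤ)) h1
    simp only [Submodule.coe_sum, Submodule.coe_smul] at h2
    rw [← h2]
    exact sum_mem fun j _ => zsmul_mem (AddSubgroup.subset_closure (Set.mem_range_self j)) _
  · intro j hj i
    exact hB1 j hj i
  · intro m hm hm0
    have h1 := B.sum_repr ⟨m, hm⟩
    have h2 := congrArg (fun x : LamZ S => (x : S.V →₀ ℤ)) h1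
    simp only [Submodule.coe_sum, Submodule.coe_smul] at h2
    rw [← h2]
    refine sum_mem fun j _ => ?_
    by_cases hj : (j : ℕ) < a
    · refine zsmul_mem (AddSubgroup.subset_closure ?_) _
      exact ⟨j, hj, rfl⟩
    · rw [hB2 ⟨m, hm⟩ hm0 j (not_lt.1 hj), zero_smul]
      exact zero_mem _
  · refine ⟨zexp μ₀ - ∑ j, (s j : ℤ) • (B j : S.V →₀ ℤ), fun i => ?_⟩
    have e1 : S.P (emb i) = ∑ μ ∈ (S.pol (emb i)).support,
        ((coeff μ (S.pol (emb i)) : ℕ) : S.F) * S.mono (zexp μ) := by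
      rw [FlatCell.P, FlatCell.ev, eval₂_eq]
      refine Finset.sum_congr rfl fun μ _ => ?_
      rw [mono_eq, lmono_zexp]
      rfl
    have e2 : evN (fun j => S.mono (B j : S.V →₀ ℤ)) (L i) =
        ∑ μ ∈ (S.pol (emb i)).support, ((coeff μ (S.pol (emb i)) : ℕ) : S.F) *
          S.mono (∑ j, (n μ j + s j) • (B j : S.V →₀ ℤ)) := by
      simp only [L, evN]
      rw [eval₂_sum]
      refine Finset.sum_congr rfl fun μ hμ => ?_
      rw [eval₂_monomial]
      congr 1
      have e3 : ∀ (g : Fin (a + c) → ℤ), S.mono (∑ j, g j • (B j : S.V →₀ ℤ)) =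
          ∏ j, S.mono (B j : S.V →₀ ℤ) ^ g j := by
        intro g
        have e4 : ∀ t : Finset (Fin (a + c)), S.mono (∑ j ∈ t, g j • (B j : S.V →₀ ℤ)) =
            ∏ j ∈ t, S.mono (B j : S.V →₀ ℤ) ^ g j := by
          intro t
          induction t using Finset.induction_on with
          | empty => simp [mono_eq, lmono_zero]
          | insert j t hj ih =>
            rw [Finset.sum_insert hj, Finset.prod_insert hj, mono_eq, lmono_add _ hxx,
              ← mono_eq, ← mono_eq, ih]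
            congr 1
            have e5 : ∀ (m : S.V →₀ ℤ) (z : ℤ), S.mono (z • m) = S.mono m ^ z := by
              intro m z
              rw [mono_eq, mono_eq, lmono_eq_prod _ (z • m) m.support Finsupp.support_smul,
                lmono_eq_prod _ m m.support (Finset.Subset.refl _), ← Finset.prod_zpow]
              refine Finset.prod_congr rfl fun v _ => ?_
              rw [Finsupp.smul_apply, smul_eq_mul, mul_comm, zpow_mul]
            exact e5 _ _
        exact e4 _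
      rw [e3, Finsupp.prod_fintype _ _ (fun j => pow_zero _)]
      refine Finset.prod_congr rfl fun j _ => ?_
      have e6 : ((k μ j : ℕ) : ℤ) = n μ j + s j := by
        simp only [k, Finsupp.equivFunOnFinite_symm_apply_apply]
        exact Int.toNat_of_nonneg (hs i μ hμ j)
      rw [← e6, zpow_natCast]
    rw [e1, e2, Finset.mul_sum]
    refine Finset.sum_congr rfl fun μ hμ => ?_
    rw [mul_left_comm]
    congr 1
    rw [mono_eq, mono_eq, mono_eq, ← lmono_add _ hxx]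
    congr 1
    have e7 := hn (emb i) μ hμ
    simp_rw [add_smul]
    rw [Finset.sum_add_distrib, ← e7]
    abel

end PosGeom.H81
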