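import Mathlib
import Pool.Agent.Helper32_ABCT.Stmts2

/-!
# ABCT part II: assembly modules GALL, DALL, LSUM, CGEN, CALL
-/

open MvPolynomial

namespace ABCT.H81

open ABCT FlatCell

/-! ### GALL -/

theorem pol_mono (S : FlatCell) (I : Finset ℕ) (h : S.Δ I = 1) :
    S.pol I = monomial (∑ i ∈ I, Finsupp.single (Sum.inl i) 1) 1 := by
  rw [FlatCell.pol, h, map_one, mul_one, monomial_sum_one]
  rfl

theorem hasG_of_const (S : FlatCell) (hS : ∀ I ∈ S.M, S.Δ I = 1) : S.HasG := by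
  classical
  intro I hI μ hμ
  have h1 := pol_mono S I (hS I hI)
  rw [h1] at hμ
  have hμ' : μ = ∑ i ∈ I, Finsupp.single (Sum.inl i) 1 :=
    Finset.mem_singleton.1 (support_monomial_subset hμ)
  have h2 : S.P I = S.mono (zexp μ) := by
    rw [P_eq, hS I hI, eval₂_one, mul_one, mono_eq, lmono_zexp, hμ',
      ← Finsupp.prod_finsetSum_index]
    · refine Finset.prod_congr rfl fun i _ => ?_
      rw [Finsupp.prod_single_index (by simp), pow_one]
    · intro v; exact pow_zero _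
    · intro v a b; exact pow_add _ _ _
  rw [h2, mono_eq, div_self (lmono_ne_zero _ (fun v => xx_ne_zero v) _)]
  exact mon_one

theorem gall (h1 : GgenStmt) (h2 : GtsumStmt) (h3 : GdsumStmt) : GallStmt := by
  intro S
  induction S with
  | black l =>
    intro _
    apply hasG_of_const
    intro I hI
    show Net.Δ (Net.black l) I = 1
    simp only [Net.Δ]
    exact if_pos hI
  | white l =>
    intro _
    apply hasG_of_const
    intro I hI
    show Net.Δ (Net.white l) I = 1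
    simp only [Net.Δ]
    exact if_pos hI
  | gen l r => exact h1 l r
  | dsum S T ihS ihT =>
    intro h
    exact h3 S T h (ihS h.1) (ihT h.2.1)
  | tsum S T q ihS ihT =>
    intro h
    exact h2 S T q h (ihS h.1) (ihT h.2.1)

/-! ### DALL -/

theorem dall (h1 : BtsumStmt) (h2 : DtsumStmt) (h3 : BDdsumStmt) (h4 : BDbwStmt)
    (h5 : BDgenStmt) : BDallStmt := by
  intro S
  induction S with
  | black l =>
    intro h
    obtain ⟨a, b, _, _⟩ := h4 l h
    exact ⟨a, b⟩
  | white l =>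
    intro h
    obtain ⟨_, _, a, b⟩ := h4 l h
    exact ⟨a, b⟩
  | gen l r => exact h5 l r
  | dsum S T ihS ihT =>
    intro h
    obtain ⟨a, b⟩ := ihS h.1
    obtain ⟨c, d⟩ := ihT h.2.1
    exact h3 S T h a c b d
  | tsum S T q ihS ihT =>
    intro h
    obtain ⟨a, b⟩ := ihS h.1
    obtain ⟨c, d⟩ := ihT h.2.1
    exact ⟨h1 S T q h a c, h2 S T q h b d⟩

/-! ### LSUM -/

theorem exp_label (S : FlatCell) (I : Finset ℕ) (μ : S.V →₀ ℕ) (hμ : μ ∈ (S.pol I).support)
    (i : ℕ) : μ (Sum.inl i) = if i ∈ I then 1 else 0 := by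
  classical
  have h1 : (∏ i ∈ I, X (Sum.inl i) : MvPolynomial S.V ℕ) =
      monomial (∑ i ∈ I, Finsupp.single (Sum.inl i) 1) 1 := by
    rw [monomial_sum_one]
    rfl
  rw [FlatCell.pol, h1] at hμ
  have h2 := support_mul _ _ hμ
  rw [Finset.mem_add] at h2
  obtain ⟨a, ha, b, hb, rfl⟩ := h2
  have ha' : a = ∑ i ∈ I, Finsupp.single (Sum.inl i) 1 :=
    Finset.mem_singleton.1 (support_monomial_subset ha)
  rw [support_rename_of_injective Sum.inr_injective, Finset.mem_image] at hb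
  obtain ⟨c, _, rfl⟩ := hb
  rw [Finsupp.add_apply, Finsupp.mapDomain_of_notMem_range _ _ (by simp), add_zero, ha',
    Finsupp.finsetSum_apply]
  simp only [Finsupp.single_apply, Sum.inl.injEq]
  rw [Finset.sum_ite_eq' I i (fun _ => 1)]

theorem lsum (hW : WfStmt) : LsumStmt := by
  classical
  intro S hS m hm
  obtain ⟨_, hE⟩ := hW S hS
  rw [FlatCell.Lam] at hm
  induction hm using AddSubgroup.closure_induction with
  | mem m hm =>
    obtain ⟨I, hI, J, hJ, μ, hμ, ν, hν, rfl⟩ := hm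
    have h1 : ∀ i : ℕ, (zexp μ - zexp ν : S.flat.V →₀ ℤ) (Sum.inl i) =
        (if i ∈ I then 1 else 0) - (if i ∈ J then 1 else 0) := by
      intro i
      rw [Finsupp.sub_apply, zexp, zexp, Finsupp.mapRange_apply, Finsupp.mapRange_apply,
        exp_label S.flat I μ hμ, exp_label S.flat J ν hν]
      push_cast
      rfl
    constructor
    · intro i hi
      rw [h1, if_neg (fun h => hi ((hE I hI).1 h)), if_neg (fun h => hi ((hE J hJ).1 h)), sub_zero]
    · simp_rw [h1]
      rw [Finset.sum_sub_distrib, Finset.sum_ite_mem, Finset.sum_ite_mem,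
        Finset.inter_eq_right.2 (hE I hI).1, Finset.inter_eq_right.2 (hE J hJ).1,
        Finset.sum_const, Finset.sum_const, (hE I hI).2, (hE J hJ).2, sub_self]
  | zero => simp
  | add a b _ _ ha hb =>
    refine ⟨fun i hi => ?_, ?_⟩
    · rw [Finsupp.add_apply, ha.1 i hi, hb.1 i hi, add_zero]
    · simp_rw [Finsupp.add_apply]
      rw [Finset.sum_add_distrib, ha.2, hb.2, add_zero]
  | neg a _ ha =>
    refine ⟨fun i hi => ?_, ?_⟩
    · rw [Finsupp.neg_apply, ha.1 i hi, neg_zero]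
    · simp_rw [Finsupp.neg_apply]
      rw [Finset.sum_neg_distrib, ha.2, neg_zero]

/-! ### CGEN -/

theorem cgen (h0 : Cg0Stmt) (h2 : Cg2Stmt) (h3 : Cg3Stmt) (h4 : Cg4Stmt) (h5 : Cg5Stmt) :
    CgenStmt := by
  intro L A R ρ q d r SA SB gA gB hG
  obtain ⟨a1, a2, a3, a4⟩ := h0 L A R ρ q d r SA SB gA gB hG
  obtain ⟨b1, b2⟩ := h5 L A R ρ q d r SA SB gA gB hG
  exact
    { wpos := a1
      wlab := a2
      wgap := a3
      kpos := PosF.one
      kgap := one_mem _
      sub := a4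
      r2 := by
        intro I hI
        obtain ⟨P, hP⟩ := h2 L A R ρ q d r SA SB gA gB hG I hI
        refine ⟨P, ?_⟩
        rw [hP]
        have : (genFD L A R ρ q d r SA SB gA gB).κ = 1 := rfl
        rw [this, map_one, mul_one]
        rfl
      r3 := by
        intro I hI μ hμ
        have h6 := h3 L A R ρ q d r SA SB gA gB hG I hI μ hμ
        have : (genFD L A R ρ q d r SA SB gA gB).κ = 1 := rfl
        rw [this, map_one, mul_one]
        exact h6
      r3s := h4 L A R ρ q d r SA SB gA gB hG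
      res := b1
      one := b2 }

/-! ### CALL -/

theorem call (hF : FacetStmt) (hP : PureStmt) (hG : GallStmt) (hV : VtxGStmt) (hCgen : CgenStmt)
    (hCbw : CbwStmt) (hDs : CdsumLStmt) (hTs : CtsumLStmt) (hTb : CtsumBStmt) (hIso : CisoStmt)
    (hSw : CswapStmt) : CallStmt := by
  intro S S' hS hSS'
  induction hSS' with
  | black l x hx hl => exact ⟨blackFD l x, hCbw.1 l x hx hl⟩
  | white l x hx hl => exact ⟨whiteFD l x, hCbw.2 l x hx hl⟩
  | gen L A R ρ q d r SA SB hq hA hB =>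
    have hnd : (L ++ A ++ R ++ [ρ]).Nodup := hS.1
    have hsubA : List.Sublist A (L ++ A ++ R ++ [ρ]) := by
      have h1 : List.Sublist A (L ++ A) := List.sublist_append_right L A
      have h2 : List.Sublist (L ++ A) (L ++ A ++ (R ++ [ρ])) := List.sublist_append_left _ _
      have h3 := h1.trans h2
      simpa [List.append_assoc] using h3
    have hndA : (A ++ [q]).Nodup := by
      rw [List.nodup_append]
      refine ⟨hnd.sublist hsubA, List.nodup_singleton q, ?_⟩
      intro a ha b hb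
      rw [List.mem_singleton] at hb
      subst hb
      intro h
      subst h
      exact hq (hsubA.subset ha)
    have hndB : (L ++ [q] ++ R ++ [ρ]).Nodup := by
      have hsub : List.Sublist (L ++ (R ++ [ρ])) (L ++ A ++ R ++ [ρ]) := by
        have : List.Sublist (R ++ [ρ]) (A ++ (R ++ [ρ])) := List.sublist_append_right _ _
        have h2 := List.Sublist.append (List.Sublist.refl L) this
        simpa [List.append_assoc] using h2
      have h1 : (L ++ (R ++ [ρ])).Nodup := hnd.sublist hsub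
      have h2 : q ∉ L ++ (R ++ [ρ]) := fun h => hq (hsub.subset h)
      have h3 : List.Perm (L ++ [q] ++ R ++ [ρ]) (q :: (L ++ (R ++ [ρ]))) := by
        have := List.perm_middle (a := q) (l₁ := L) (l₂ := R ++ [ρ])
        simpa [List.append_assoc] using this
      rw [h3.nodup_iff, List.nodup_cons]
      exact ⟨h2, h1⟩
    obtain ⟨⟨gA, hgA⟩, _⟩ := hV _ _ _ hA hndA
    obtain ⟨⟨gB, hgB⟩, _⟩ := hV _ _ _ hB hndB
    exact ⟨genFD L A R ρ q d r SA SB gA gB,
      hCgen L A R ρ q d r SA SB gA gB ⟨hS, hq, hA, hB, hgA, hgB⟩⟩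
  | dsumL S T S' h ih =>
    obtain ⟨φ, hφ⟩ := ih hS.1
    exact ⟨dsumLFD T φ, hDs S T S' φ hS h (hG T hS.2.1) hφ⟩
  | dsumR S T T' h ih =>
    obtain ⟨φ, hφ⟩ := ih hS.2.1
    have hv : (Net.dsum T S).Valid := ⟨hS.2.1, hS.1, hS.2.2.symm⟩
    have h1 := hDs T S T' φ hv h (hG S hS.1) hφ
    have h2 := hSw.1 T S hS.2.2.symm
    obtain ⟨_, hE, _⟩ := hF T T' hS.2.1 h
    have h3 := hSw.1 T' S (by rw [hE]; exact hS.2.2.symm)
    exact ⟨_, hIso _ _ _ _ _ _ h2 h3 _ h1⟩
  | tsumL S T S' q hq h ih =>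
    obtain ⟨φ, hφ⟩ := ih hS.1
    exact ⟨tsumLFD T q φ, hTs S T S' q φ hS hq h (hG T hS.2.1) hφ⟩
  | tsumR S T T' q hq h ih =>
    obtain ⟨φ, hφ⟩ := ih hS.2.1
    have hv : (Net.tsum T S q).Valid := Net.Valid.tsum_symm hS
    have h1 := hTs T S T' q φ hv hq h (hG S hS.1) hφ
    have h2 := hSw.2 T S q hv
    have hv' : (Net.tsum T' S q).Valid :=
      Net.Valid.tsum_symm (hF (Net.tsum S T q) (Net.tsum S T' q) hS (.tsumR S T T' q hq h)).1
    have h3 := hSw.2 T' S q hv'
    exact ⟨_, hIso _ _ _ _ _ _ h2 h3 _ h1⟩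
  | tsumB S T S' T' q hSa hTa hq h h' ih ih' =>
    obtain ⟨φ, hφ⟩ := ih hS.1
    have hna : ¬ T'.Alive q := by
      rintro ⟨⟨I, hI, hqI⟩, ⟨J, hJ, hqJ⟩⟩
      rcases hq with ⟨_, h2⟩ | ⟨_, h2⟩
      · exact hqJ (h2 J hJ)
      · exact h2 I hI hqI
    obtain ⟨e, he⟩ := hP T T' q hS.2.1 h' hTa hna
    exact ⟨tsumBFD T T' q e φ, hTb S T S' T' q e φ hS hSa hTa hq h h'
      (hG S' (hF S S' hS.1 h).1) (hG T' (hF T T' hS.2.1 h').1) he hφ⟩

end ABCT.H81
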